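import Mathlib
import Pool.Agent.H.MP_00c8a8_co.Check

set_option autoImplicit false

namespace Pool.Agent.Results.MP_00c8a8_co.FifthCodegree

open Pool.Agent.H.MP_00c8a8_co

/-- A `k`-graph on the vertex set `Fin n`. -/
structure KGraph (k n : ℕ) where
  /-- the edges -/
  edges : Finset (Finset (Fin n))
  uniform : ∀ e ∈ edges, e.card = k

/-- The codegree of `S`: the number of edges containing `S`. -/
def codegree {k n : ℕ} (H : KGraph k n) (S : Finset (Fin n)) : ℕ :=
  (H.edges.filter fun e => S ⊆ e).card

/-- The minimum codegree over the sets of `k - 1` vertices. -/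
noncomputable def minCodegree {k n : ℕ} (H : KGraph k n) : ℕ :=
  sInf {d : ℕ | ∃ S : Finset (Fin n), S.card = k - 1 ∧ codegree H S = d}

/-- Two edges are tightly connected: they are joined by a sequence of edges in which consecutive
ones share exactly `k - 1` vertices. -/
def TightlyConnected {k n : ℕ} (H : KGraph k n) (e f : Finset (Fin n)) : Prop :=
  Relation.ReflTransGen (fun a b => a ∈ H.edges ∧ b ∈ H.edges ∧ (a ∩ b).card = k - 1) e f

/-- The tight component of an edge. -/
def tightComponent {k n : ℕ} (H : KGraph k n) (e : Finset (Fin n)) : Set (Finset (Fin n)) :=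
  {f | f ∈ H.edges ∧ TightlyConnected H e f}

/-- Every vertex lies in some edge of `C`. -/
def VertexSpanning {n : ℕ} (C : Set (Finset (Fin n))) : Prop :=
  ∀ v : Fin n, ∃ f ∈ C, v ∈ f

variable {n : ℕ}

open Finset

/-- soundness of the enumeration `allV` -/
theorem allV_sound (P : ℕ → Bool) : ∀ (m r i acc : ℕ), allV P m r i acc = true →
    ∀ c : ℕ → ℕ, (∀ x, i ≤ x → x < 7 → c x ≤ 1) →
      (∑ x ∈ Finset.range m, c (i + x)) = r →
      P (acc + ∑ x ∈ Finset.range m, c (i + x) * 8 ^ (i + x)) = true := by
  intro m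
  induction m with
  | zero =>
    intro r i acc h c _ hs
    simp only [Finset.range_zero, Finset.sum_empty] at hs
    subst hs
    simpa [allV] using h
  | succ m ih =>
    intro r i acc h c hc hs
    rw [allV, List.all_eq_true] at h
    rw [Finset.sum_range_succ'] at hs
    rw [Finset.sum_range_succ']
    simp only [Nat.add_zero] at hs ⊢
    have e1 : ∑ x ∈ Finset.range m, c (i + (x + 1)) = ∑ x ∈ Finset.range m, c (i + 1 + x) :=
      Finset.sum_congr rfl (fun x _ => by rw [show i + (x + 1) = i + 1 + x by omega])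
    have e1' : ∑ x ∈ Finset.range m, c (i + (x + 1)) * 8 ^ (i + (x + 1)) =
        ∑ x ∈ Finset.range m, c (i + 1 + x) * 8 ^ (i + 1 + x) :=
      Finset.sum_congr rfl (fun x _ => by rw [show i + (x + 1) = i + 1 + x by omega])
    rw [e1] at hs
    rw [e1']
    have hci : c i ≤ r := by omega
    have hmem : c i ∈ List.range (min r (bif Nat.ble (i + 1) 7 then 1 else r) + 1) := by
      rw [List.mem_range, Nat.lt_succ_iff, le_min_iff]
      refine ⟨hci, ?_⟩
      by_cases h7 : i + 1 ≤ 7
      · rw [show Nat.ble (i + 1) 7 = true by rw [Nat.ble_eq]; exact h7]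
        exact hc i le_rfl (by omega)
      · have : Nat.ble (i + 1) 7 = false := by
          rw [← Bool.not_eq_true]
          intro hh
          rw [Nat.ble_eq] at hh
          exact h7 hh
        rw [this]
        exact hci
    have h2 := ih (r - c i) (i + 1) (acc + c i * 8 ^ i) (h (c i) hmem) c
      (fun x hx hx7 => hc x (by omega) hx7) (by omega)
    have e2 : acc + (∑ x ∈ Finset.range m, c (i + 1 + x) * 8 ^ (i + 1 + x) + c i * 8 ^ i) =
        acc + c i * 8 ^ i + ∑ x ∈ Finset.range m, c (i + 1 + x) * 8 ^ (i + 1 + x) := by ring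
    rw [e2]
    exact h2

/-- type of a vertex: the seven special vertices `0, ..., 6` have types `0, ..., 6`; the other
vertices fall into five classes `7, ..., 11` of almost equal size -/
def ty (v : Fin n) : ℕ := if v.val < 7 then v.val else 7 + (v.val - 7) % 5

def key (S : Finset (Fin n)) : ℕ := ∑ v ∈ S, 8 ^ ty v

def cnt (S : Finset (Fin n)) (i : ℕ) : ℕ := (S.filter (fun v => ty v = i)).card

theorem ty_lt (v : Fin n) : ty v < 12 := by
  unfold ty
  split_ifs with h
  · omega
  · omega

theorem key_eq (S : Finset (Fin n)) : key S = ∑ i ∈ Finset.range 12, cnt S i * 8 ^ i := by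
  unfold key cnt
  rw [← Finset.sum_fiberwise_of_maps_to (s := S) (t := Finset.range 12) (g := ty)
    (fun v _ => Finset.mem_range.2 (ty_lt v))]
  apply Finset.sum_congr rfl
  intro i _
  rw [Finset.sum_congr rfl (g := fun _ => 8 ^ i)]
  · rw [Finset.sum_const, smul_eq_mul]
  · intro v hv
    rw [(Finset.mem_filter.1 hv).2]

theorem sum_cnt (S : Finset (Fin n)) : ∑ i ∈ Finset.range 12, cnt S i = S.card := by
  unfold cnt
  exact (Finset.card_eq_sum_card_fiberwise (fun v _ => Finset.mem_coe.2 (Finset.mem_range.2 (ty_lt v)))).symm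

theorem ty_special {v : Fin n} {i : ℕ} (hi : i < 7) (h : ty v = i) : v.val = i := by
  unfold ty at h
  split_ifs at h with h1
  · exact h
  · omega

theorem cnt_le_one (S : Finset (Fin n)) {i : ℕ} (hi : i < 7) : cnt S i ≤ 1 := by
  unfold cnt
  rw [Finset.card_le_one]
  intro a ha b hb
  have h1 := ty_special hi (Finset.mem_filter.1 ha).2
  have h2 := ty_special hi (Finset.mem_filter.1 hb).2
  exact Fin.ext (h1.trans h2.symm)

theorem cnt_le (S : Finset (Fin n)) (i : ℕ) : cnt S i ≤ S.card := Finset.card_filter_le _ _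

theorem digit_sum : ∀ (m : ℕ) (c : ℕ → ℕ), (∀ j, c j ≤ 7) → ∀ i < m,
    digit (∑ x ∈ Finset.range m, c x * 8 ^ x) i = c i := by
  intro m
  induction m with
  | zero => intro c _ i hi; omega
  | succ m ih =>
    intro c hc i hi
    rw [Finset.sum_range_succ']
    have e : ∑ x ∈ Finset.range m, c (x + 1) * 8 ^ (x + 1) =
        8 * ∑ x ∈ Finset.range m, c (x + 1) * 8 ^ x := by
      rw [Finset.mul_sum]
      exact Finset.sum_congr rfl (fun x _ => by ring)
    rw [e]
    have h0 := hc 0
    match i, hi with
    | 0, _ =>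
      unfold digit
      simp only [pow_zero, Nat.div_one, mul_one]
      omega
    | i + 1, hi =>
      have := ih (fun x => c (x + 1)) (fun j => hc (j + 1)) i (by omega)
      unfold digit at this ⊢
      rw [← this]
      simp only [pow_zero, mul_one]
      rw [pow_succ', ← Nat.div_div_eq_div_mul]
      congr 2
      omega

theorem digit_key (S : Finset (Fin n)) (hS : S.card ≤ 7) {i : ℕ} (hi : i < 12) :
    digit (key S) i = cnt S i := by
  rw [key_eq]
  exact digit_sum 12 (cnt S) (fun j => (cnt_le S j).trans hS) i hi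

theorem good_key (S : Finset (Fin n)) (hS : S.card = 5) : good (key S) = true := by
  have h := allV_sound good 12 5 0 0 all_good (cnt S)
    (fun x _ hx => cnt_le_one S hx)
    (by simpa only [Nat.zero_add] using (sum_cnt S).trans hS)
  simp only [Nat.zero_add] at h
  rw [key_eq]
  exact h

/-- colour of a set -/
def C (S : Finset (Fin n)) : ℕ := col (key S)

theorem good_spec (S : Finset (Fin n)) (hS : S.card = 5) :
    ∃ j < 5, cnt S (C S) = 0 ∧ C S < 7 ∧
      ∀ i < 12, cnt S i ≠ 0 → col (key S + 8 ^ (7 + j) - 8 ^ i) = C S := by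
  have h := good_key S hS
  unfold good goodWith at h
  simp only [Bool.and_eq_true, Nat.ble_eq, Nat.beq_eq, List.all_eq_true, List.mem_range,
    Bool.or_eq_true] at h
  obtain ⟨⟨h1, h2⟩, h3⟩ := h
  have hc : C S = code (key S) % 7 := rfl
  have hlt : C S < 7 := by rw [hc]; exact Nat.mod_lt _ (by norm_num)
  refine ⟨code (key S) / 7, by omega, ?_, hlt, ?_⟩
  · rw [← hc] at h2
    rw [← digit_key S (by omega) (by omega)]
    exact h2
  · intro i hi hne
    rcases h3 i hi with h4 | h4
    · rw [digit_key S (by omega) hi] at h4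
      exact absurd h4 hne
    · rw [hc]; exact h4

/-- the hypergraph: all 6-sets whose 5-subsets have the same colour -/
def HG (n : ℕ) : Finset (Finset (Fin n)) :=
  (Finset.powersetCard 6 Finset.univ).filter (fun e => ∀ u ∈ e, ∀ v ∈ e, C (e.erase u) = C (e.erase v))

theorem class_card (n : ℕ) : ∀ j < 5, (n - 7) / 5 ≤
    (Finset.univ.filter (fun v : Fin n => ty v = 7 + j)).card := by
  intro j hj
  have h : ((Finset.range ((n - 7) / 5)).attach.image
      (fun i : {x // x ∈ Finset.range ((n - 7) / 5)} =>
        (⟨7 + (5 * i.1 + j), by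
          have := Finset.mem_range.1 i.2
          omega⟩ : Fin n))).card = (n - 7) / 5 := by
    rw [Finset.card_image_of_injective]
    · simp
    · intro a b hab
      simp only [Fin.mk.injEq] at hab
      apply Subtype.ext
      omega
  rw [← h]
  apply Finset.card_le_card
  intro v hv
  rw [Finset.mem_image] at hv
  obtain ⟨i, -, rfl⟩ := hv
  rw [Finset.mem_filter]
  refine ⟨Finset.mem_univ _, ?_⟩
  unfold ty
  rw [if_neg (by simp)]
  simp only []
  omega

theorem insert_mem_H {S : Finset (Fin n)} (hS : S.card = 5) {j : ℕ}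
    (hj : ∀ i < 12, cnt S i ≠ 0 → col (key S + 8 ^ (7 + j) - 8 ^ i) = C S)
    {w : Fin n} (hw : w ∉ S) (htw : ty w = 7 + j) : insert w S ∈ HG n := by
  have key1 : ∀ u ∈ insert w S, C ((insert w S).erase u) = C S := by
    intro u hu
    rw [Finset.mem_insert] at hu
    rcases eq_or_ne u w with rfl | hne
    · rw [Finset.erase_insert hw]
    · have huS : u ∈ S := by
        rcases hu with h | h
        · exact absurd h hne
        · exact h
      have h1 : key ((insert w S).erase u) = key S + 8 ^ (7 + j) - 8 ^ ty u := by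
        have h2 : key (insert w S) = 8 ^ (7 + j) + key S := by
          unfold key
          rw [Finset.sum_insert hw, htw]
        have h3 : key ((insert w S).erase u) + 8 ^ ty u = key (insert w S) := by
          unfold key
          rw [Finset.sum_erase_add _ _ (Finset.mem_insert_of_mem huS)]
        omega
      have h4 : cnt S (ty u) ≠ 0 := by
        unfold cnt
        rw [Finset.card_ne_zero]
        exact ⟨u, Finset.mem_filter.2 ⟨huS, rfl⟩⟩
      show col (key ((insert w S).erase u)) = C S
      rw [h1]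
      exact hj (ty u) (ty_lt u) h4
  unfold HG
  rw [Finset.mem_filter, Finset.mem_powersetCard]
  refine ⟨⟨Finset.subset_univ _, by rw [Finset.card_insert_of_notMem hw, hS]⟩, ?_⟩
  intro u hu v hv
  rw [key1 u hu, key1 v hv]

theorem codegree_bound (S : Finset (Fin n)) (hS : S.card = 5) :
    (n - 7) / 5 - 5 ≤ ((HG n).filter (fun e => S ⊆ e)).card := by
  obtain ⟨j, hj5, _, _, hj⟩ := good_spec S hS
  have h1 : (n - 7) / 5 - 5 ≤
      ((Finset.univ.filter (fun v : Fin n => ty v = 7 + j)) \ S).card := by
    have h3 := Finset.le_card_sdiff S (Finset.univ.filter (fun v : Fin n => ty v = 7 + j))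
    have h4 := class_card n j hj5
    rw [hS] at h3
    omega
  have h2 : ((Finset.univ.filter (fun v : Fin n => ty v = 7 + j)) \ S).card ≤
      ((HG n).filter (fun e => S ⊆ e)).card := by
    apply Finset.card_le_card_of_injOn (fun w => insert w S)
    · intro w hw
      rw [Finset.mem_coe, Finset.mem_sdiff, Finset.mem_filter] at hw
      rw [Finset.mem_coe, Finset.mem_filter]
      exact ⟨insert_mem_H hS hj hw.2 hw.1.2, Finset.subset_insert _ _⟩
    · intro a ha b hb hab
      rw [Finset.mem_coe, Finset.mem_sdiff] at ha hb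
      have : a ∈ insert b S := by
        have h3 : a ∈ insert a S := Finset.mem_insert_self _ _
        rw [show insert a S = insert b S from hab] at h3
        exact h3
      rw [Finset.mem_insert] at this
      rcases this with h | h
      · exact h
      · exact absurd h ha.2
  omega

/-- all 5-subsets of an edge have the colour of the edge -/
theorem edge_colour {e : Finset (Fin n)} (he : e ∈ HG n) {S : Finset (Fin n)} (hS : S.card = 5)
    (hSe : S ⊆ e) : ∃ u ∈ e, S = e.erase u := by
  unfold HG at he
  rw [Finset.mem_filter, Finset.mem_powersetCard] at he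
  have hc : (e \ S).card = 1 := by
    rw [Finset.card_sdiff_of_subset hSe, he.1.2, hS]
  obtain ⟨u, hu⟩ := Finset.card_eq_one.1 hc
  have hu' : u ∈ e \ S := by rw [hu]; exact Finset.mem_singleton_self u
  rw [Finset.mem_sdiff] at hu'
  refine ⟨u, hu'.1, ?_⟩
  apply Finset.eq_of_subset_of_card_le
  · intro x hx
    rw [Finset.mem_erase]
    exact ⟨fun h => hu'.2 (h ▸ hx), hSe hx⟩
  · rw [Finset.card_erase_of_mem hu'.1, he.1.2, hS]

theorem same_colour {e : Finset (Fin n)} (he : e ∈ HG n) {u v : Fin n} (hu : u ∈ e) (hv : v ∈ e) :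
    C (e.erase u) = C (e.erase v) := by
  unfold HG at he
  exact (Finset.mem_filter.1 he).2 u hu v hv

theorem card_edge {e : Finset (Fin n)} (he : e ∈ HG n) : e.card = 6 := by
  unfold HG at he
  exact (Finset.mem_powersetCard.1 (Finset.mem_filter.1 he).1).2

/-- adjacent edges have the same colour -/
theorem adj_colour {e f : Finset (Fin n)} (he : e ∈ HG n) (hf : f ∈ HG n) (h : 5 ≤ (e ∩ f).card)
    {u v : Fin n} (hu : u ∈ e) (hv : v ∈ f) : C (e.erase u) = C (f.erase v) := by
  obtain ⟨S, hSsub, hS⟩ := Finset.exists_subset_card_eq h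
  obtain ⟨a, ha, hSa⟩ := edge_colour he hS (hSsub.trans Finset.inter_subset_left)
  obtain ⟨b, hb, hSb⟩ := edge_colour hf hS (hSsub.trans Finset.inter_subset_right)
  rw [same_colour he hu ha, same_colour hf hv hb, ← hSa, ← hSb]

theorem reach_colour {e f : Finset (Fin n)} (he : e ∈ HG n)
    (h : Relation.ReflTransGen
      (fun a b : Finset (Fin n) => a ∈ HG n ∧ b ∈ HG n ∧ (a ∩ b).card = 6 - 1) e f) :
    f ∈ HG n ∧ ∀ u ∈ e, ∀ v ∈ f, C (e.erase u) = C (f.erase v) := by
  induction h with
  | refl => exact ⟨he, fun u hu v hv => same_colour he hu hv⟩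
  | tail _ hbc ih =>
    obtain ⟨hb, hc, hcard⟩ := hbc
    refine ⟨hc, fun u hu v hv => ?_⟩
    obtain ⟨_, ih⟩ := ih
    have hne : (_ : Finset (Fin n)).Nonempty := Finset.card_pos.1 (by rw [card_edge hb]; norm_num)
    obtain ⟨w, hw⟩ := hne
    rw [ih u hu w hw]
    exact adj_colour hb hc (le_of_eq hcard.symm) hw hv

/-- The `6`-graph on `n` vertices. -/
def graph (n : ℕ) : KGraph 6 n where
  edges := HG n
  uniform := fun _ he => card_edge he

/-- For every `n ≥ 7` a `6`-graph on `n` vertices with minimum codegree at least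
`⌊(n - 7) / 5⌋ - 5`, hence at least `n / 6` for `n = 192` and for all `n ≥ 216`, in which no tight
component is vertex-spanning. -/
theorem result (n : ℕ) (hn : 7 ≤ n) :
    ∃ H : KGraph 6 n,
      (n - 7) / 5 - 5 ≤ minCodegree H ∧
      ((n = 192 ∨ 216 ≤ n) → (n : ℚ) / 6 ≤ minCodegree H) ∧
      ∀ e ∈ H.edges, ¬ VertexSpanning (tightComponent H e) := by
  have hmin : (n - 7) / 5 - 5 ≤ minCodegree (graph n) := by
    unfold minCodegree
    apply le_csInf
    · obtain ⟨S, hS⟩ := Finset.exists_subset_card_eq
        (s := (Finset.univ : Finset (Fin n))) (n := 5) (by simp; omega)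
      exact ⟨_, S, hS.2, rfl⟩
    · rintro d ⟨S, hS, rfl⟩
      exact codegree_bound S hS
  refine ⟨graph n, hmin, ?_, ?_⟩
  · intro h
    rw [div_le_iff₀ (by norm_num)]
    have : n ≤ minCodegree (graph n) * 6 := by omega
    exact_mod_cast this
  · intro e he hcov
    have hecard := card_edge he
    obtain ⟨u, hu⟩ : e.Nonempty := Finset.card_pos.1 (by rw [hecard]; norm_num)
    have hS5 : (e.erase u).card = 5 := by rw [Finset.card_erase_of_mem hu, hecard]
    obtain ⟨_, _, _, hlt, _⟩ := good_spec (e.erase u) hS5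
    obtain ⟨f, ⟨hf, hreach⟩, hv⟩ := hcov ⟨C (e.erase u), lt_of_lt_of_le hlt hn⟩
    obtain ⟨_, hcol⟩ := reach_colour he hreach
    have hfcard := card_edge hf
    obtain ⟨w, hw, hwne⟩ := Finset.exists_mem_ne (by rw [hfcard]; norm_num : 1 < f.card)
      (⟨C (e.erase u), lt_of_lt_of_le hlt hn⟩ : Fin n)
    have hT5 : (f.erase w).card = 5 := by rw [Finset.card_erase_of_mem hw, hfcard]
    obtain ⟨_, _, hcnt, _, _⟩ := good_spec (f.erase w) hT5
    rw [← hcol u hu w hw] at hcnt
    unfold cnt at hcnt
    rw [Finset.card_eq_zero, Finset.filter_eq_empty_iff] at hcnt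
    refine hcnt (Finset.mem_erase.2 ⟨hwne.symm, hv⟩) ?_
    unfold ty
    rw [if_pos hlt]

end Pool.Agent.Results.MP_00c8a8_co.FifthCodegree
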